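import Pool.Agent.Y329.CG.Stm
import Pool.Agent.Y329.CG.OK

/-!
Project CG, piece CG-AN: analyticity along active words.
-/

set_option autoImplicit false

open Set Filter Topology

namespace Pool.Agent.Y401.CG.AN

open Pool.Agent.Y329.CG

variable {s : Fin 2 → Equiv.Perm ℝ}

theorem analyticAt_ltr (h : Pair0 s) (a : Fin 2 × Bool) {x : ℝ} (hx : x ∈ Do a.1) :
    AnalyticAt ℝ (rho s (ltr a)) x := by
  obtain ⟨i, b⟩ := a
  cases b with
  | true => rw [ltr_true, rho_of]; exact h.an i x hx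
  | false =>
    rw [ltr_false, map_inv, rho_of]
    exact h.an_symm i x hx

theorem act_an (h : Pair0 s) : ∀ (L : List (Fin 2 × Bool)) (l : ℝ), Act s Do L l →
    AnalyticAt ℝ (rho s (FreeGroup.mk L)) l ∧ ∀ᶠ y in 𝓝 l, Act s Do L y
  | [], l, _ => by
    have e : (FreeGroup.mk [] : F2) = 1 := rfl
    refine ⟨?_, Eventually.of_forall fun y => trivial⟩
    rw [e, map_one]
    exact analyticAt_id
  | a :: L, l, hL => by
    obtain ⟨h1, h2⟩ := act_an h L l hL.1
    have hop : IsOpen (Do a.1) := isOpen_Ioo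
    refine ⟨?_, ?_⟩
    · have e : (rho s (FreeGroup.mk (a :: L)) : ℝ → ℝ) =
          (rho s (ltr a) : ℝ → ℝ) ∘ (rho s (FreeGroup.mk L) : ℝ → ℝ) := by
        funext y
        rw [mk_cons, rho_mul_apply]; rfl
      rw [e]
      exact (analyticAt_ltr h a hL.2).comp h1
    · have h3 : ∀ᶠ y in 𝓝 l, rho s (FreeGroup.mk L) y ∈ Do a.1 :=
        h1.continuousAt.eventually (hop.mem_nhds hL.2)
      filter_upwards [h2, h3] with y hy1 hy2
      exact ⟨hy1, hy2⟩

theorem act_open : ∀ (L : List (Fin 2 × Bool)) (l : ℝ),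
    (∀ V : F2, rho s V l ≠ 0 ∧ rho s V l ≠ 1) → Act s Dp L l → Act s Do L l
  | [], _, _, _ => trivial
  | a :: L, l, hV, hL => by
    refine ⟨act_open L l hV hL.1, ?_⟩
    have h2 := hL.2
    rw [Dp, mem_Ico] at h2
    rw [Do, mem_Ioo]
    refine ⟨lt_of_le_of_ne h2.1 ?_, h2.2⟩
    obtain ⟨hv0, hv1⟩ := hV (FreeGroup.mk L)
    obtain ⟨i, b⟩ := a
    intro e
    have hi : i = 0 ∨ i = 1 := by omega
    rcases hi with rfl | rfl
    · apply hv0; rw [← e]; simp [lo]
    · apply hv1; rw [← e]; simp [lo]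

theorem act_mono : ∀ (L : List (Fin 2 × Bool)) (l : ℝ), Act s Do L l → Act s Dp L l
  | [], _, _ => trivial
  | _ :: L, l, hL => ⟨act_mono L l hL.1, Ioo_subset_Ico_self hL.2⟩

theorem done : S_AN := by
  intro s h d l hV hd
  have hok := (ok_proof s h).1
  obtain ⟨L, h1, h2, -⟩ := hok.exists_act d l
  rw [hd] at h1
  have h3 := act_open L l hV h2
  obtain ⟨h4, h5⟩ := act_an h L l h3
  rw [h1] at h4
  refine ⟨h4, ?_⟩
  filter_upwards [h5] with y hy
  have h6 := hok.coc_of_act (act_mono L y hy)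
  rwa [h1] at h6

end Pool.Agent.Y401.CG.AN

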